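import Pool.Agent.Helper74.CO.Goals

/-!
# Project CO, packet EXA
-/

set_option autoImplicit false

namespace Pool.Agent.Helper29.CO

open Finset Pool.Agent.Helper74.CO

theorem exists_K0 (E : ℕ) (hE : 1 ≤ E) :
    ∃ K : ℕ, ∀ k : ℕ, K < k → 32 * E ^ 2 * (k + 1) ^ 4 ≤ 2 ^ k := by
  have h := tendsto_pow_const_div_const_pow_of_one_lt 4 (r := (2 : ℝ)) (by norm_num)
  have h2 := h.comp (Filter.tendsto_add_atTop_nat 1)
  have hE' : (0 : ℝ) < 1 / (64 * (E : ℝ) ^ 2) := by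
    have : (0 : ℝ) < E := by exact_mod_cast hE
    positivity
  have h3 := (h2.eventually (gt_mem_nhds hE'))
  obtain ⟨K, hK⟩ := Filter.eventually_atTop.1 h3
  refine ⟨K, fun k hk => ?_⟩
  have h4 := hK k hk.le
  simp only [Function.comp] at h4
  have hE0 : (0 : ℝ) < E := by exact_mod_cast hE
  rw [div_lt_div_iff₀ (by positivity) (by positivity)] at h4
  have h5 : (((k + 1 : ℕ) : ℝ)) ^ 4 * (64 * (E : ℝ) ^ 2) < 1 * 2 ^ (k + 1) := h4
  have h6 : (k + 1) ^ 4 * (64 * E ^ 2) < 1 * 2 ^ (k + 1) := by exact_mod_cast h5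
  rw [pow_succ 2 k] at h6
  nlinarith

theorem t_EXA (hSX : SX) (hSUB : SUB) (hLI : LI) : EXA := by
  intro E hE
  obtain ⟨K, hK⟩ := exists_K0 E hE
  refine ⟨16 * E ^ 2 * (K + 1) ^ 4, ?_⟩
  intro F _ _ _ α X p r _ hp hq hα hInv h2X hpX
  rcases X.eq_empty_or_nonempty with rfl | hne
  · simp
  have hex : ∃ κ : ℕ, #X < 16 * E ^ 2 * (κ + 1) ^ 4 := by
    refine ⟨#X, ?_⟩
    have h1 : 1 ≤ E ^ 2 := Nat.one_le_pow _ _ hE
    have h2 : #X + 1 ≤ (#X + 1) ^ 4 := Nat.le_self_pow (by norm_num) _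
    nlinarith
  classical
  obtain ⟨κ₁, hκ₁, hmin⟩ : ∃ κ : ℕ, #X < 16 * E ^ 2 * (κ + 1) ^ 4 ∧ 16 * E ^ 2 * κ ^ 4 ≤ #X := by
    refine ⟨Nat.find hex, Nat.find_spec hex, ?_⟩
    rcases Nat.eq_zero_or_pos (Nat.find hex) with h0 | h0
    · rw [h0]; simp
    · have := Nat.find_min hex (m := Nat.find hex - 1) (by omega)
      rw [Nat.sub_add_cancel h0] at this
      omega
  have key : ∀ κ : ℕ, κ ≤ κ₁ → κ ≤ r → p ^ κ ≤ 2 * #X := by
    intro κ h1 hr
    let d : (Fin κ → Fin p) → ℕ → ℕ := fun n k => if h : k < κ then (n ⟨k, h⟩ : ℕ) else 0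
    let f : (Fin κ → Fin p) → F := fun n => ∑ k ∈ range κ, (d n k : F) * α ^ k
    have hd : ∀ n k, k < κ → d n k < p := by
      intro n k hk
      simp only [d, dif_pos hk]
      exact (n ⟨k, hk⟩).2
    have hinj : Function.Injective f := by
      intro n n' h
      have := hLI F α p r κ (d n) (d n') hp hα hq hr (fun k hk => ⟨hd n k hk, hd n' k hk⟩) h
      funext i
      have h3 := this i.1 i.2
      simp only [d, dif_pos i.2] at h3
      exact Fin.ext h3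
    have hcard : #(univ.image f) = p ^ κ := by
      rw [card_image_of_injective _ hinj]
      simp
    rw [← hcard]
    apply hSX F X _ hne
    intro s hs
    obtain ⟨n, -, rfl⟩ := mem_image.1 hs
    have h3 := (hSUB F X).2 κ (d n) (fun k => α ^ k)
    have h4 : ∑ k ∈ range κ, d n k * #(X.image (· + α ^ k) \ X) ≤ ∑ k ∈ range κ, p * (E * κ) := by
      apply sum_le_sum
      intro k hk
      have hk' := mem_range.1 hk
      have h5 := hInv (k : ℤ)
      rw [zpow_natCast, Int.natAbs_natCast] at h5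
      apply Nat.mul_le_mul (hd n k hk').le
      refine h5.trans (Nat.mul_le_mul le_rfl (by omega))
    rw [sum_const, card_range, smul_eq_mul] at h4
    have h6 : #(X.image (· + f n) \ X) ≤ κ * (p * (E * κ)) := h3.trans h4
    have h7 : (2 * (κ * (p * (E * κ)))) ^ 2 ≤ #X ^ 2 := by
      have h8 : 16 * E ^ 2 * κ ^ 4 ≤ #X :=
        le_trans (Nat.mul_le_mul le_rfl (Nat.pow_le_pow_left h1 4)) hmin
      calc (2 * (κ * (p * (E * κ)))) ^ 2 = (E ^ 2 * κ ^ 4) * 4 * p ^ 2 := by ring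
        _ ≤ (E ^ 2 * κ ^ 4) * 4 * (4 * #X) := Nat.mul_le_mul le_rfl hpX
        _ = (16 * E ^ 2 * κ ^ 4) * #X := by ring
        _ ≤ #X * #X := Nat.mul_le_mul h8 le_rfl
        _ = #X ^ 2 := by ring
    have h9 : 2 * (κ * (p * (E * κ))) ≤ #X := by
      by_contra hcon
      exact absurd h7 (not_le.2 (Nat.pow_lt_pow_left (not_le.1 hcon) (by norm_num)))
    omega
  rcases le_or_gt r κ₁ with hr | hr
  · have := key r hr le_rfl
    rw [hq] at h2X
    omega
  · have h1 := key κ₁ le_rfl hr.le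
    have h2 : 2 ^ κ₁ ≤ p ^ κ₁ := Nat.pow_le_pow_left hp.two_le _
    have h3 : κ₁ ≤ K := by
      by_contra hcon
      have := hK κ₁ (not_le.1 hcon)
      nlinarith
    have h4 : (κ₁ + 1) ^ 4 ≤ (K + 1) ^ 4 := Nat.pow_le_pow_left (by omega) 4
    have h5 : 16 * E ^ 2 * (κ₁ + 1) ^ 4 ≤ 16 * E ^ 2 * (K + 1) ^ 4 := Nat.mul_le_mul le_rfl h4
    omega

end Pool.Agent.Helper29.CO
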